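import Mathlib

open scoped BigOperators ENNReal

namespace Pool.Agent.Results.MP_b7f2f1_an.SemiGreedyGap

section Definitions

variable {𝕜 : Type} [RCLike 𝕜] {X : Type} [NormedAddCommGroup X] [NormedSpace 𝕜 X]

/-- `(e n)` is a Markushevich basis of `X` with biorthogonal functionals `(f n)`. -/
structure IsMarkushevichBasis (e : ℕ → X) (f : ℕ → X →L[𝕜] 𝕜) : Prop where
  biorthogonal : ∀ k n, f k (e n) = if k = n then 1 else 0
  dense_span : Dense (Submodule.span 𝕜 (Set.range e) : Set X)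
  total : ∀ x : X, (∀ n, f n x = 0) → x = 0

/-- The coordinate projection `P_A(x) = ∑_{n ∈ A} f n x • e n`. -/
def proj (e : ℕ → X) (f : ℕ → X →L[𝕜] 𝕜) (A : Finset ℕ) (x : X) : X :=
  ∑ n ∈ A, f n x • e n

/-- `A` is a greedy set of `x`. -/
def IsGreedySet (f : ℕ → X →L[𝕜] 𝕜) (x : X) (A : Finset ℕ) : Prop :=
  ∀ n ∈ A, ∀ k ∉ A, ‖f k x‖ ≤ ‖f n x‖

/-- `σ_m(x)`: the error of best `m`-term approximation with arbitrary coefficients. -/
noncomputable def sigma (𝕜 : Type) [RCLike 𝕜] {X : Type} [NormedAddCommGroup X]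
    [NormedSpace 𝕜 X] (e : ℕ → X) (m : ℕ) (x : X) : ℝ :=
  sInf {r : ℝ | ∃ (B : Finset ℕ) (a : ℕ → 𝕜), B.card ≤ m ∧ r = ‖x - ∑ n ∈ B, a n • e n‖}

/-- The error of best approximation of `x` by its coordinate projections `P_B(x)`, `|B| ≤ m`. -/
noncomputable def sigmaTilde (e : ℕ → X) (f : ℕ → X →L[𝕜] 𝕜) (m : ℕ) (x : X) : ℝ :=
  sInf {r : ℝ | ∃ B : Finset ℕ, B.card ≤ m ∧ r = ‖x - proj e f B x‖}

/-- The basis is `C`-almost-greedy. -/
def AlmostGreedy (C : ℝ) (e : ℕ → X) (f : ℕ → X →L[𝕜] 𝕜) : Prop :=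
  ∀ (x : X) (A : Finset ℕ), IsGreedySet f x A →
    ‖x - proj e f A x‖ ≤ C * sigmaTilde e f A.card x

/-- The basis is `C`-semi-greedy. -/
def SemiGreedy (C : ℝ) (e : ℕ → X) (f : ℕ → X →L[𝕜] 𝕜) : Prop :=
  ∀ (x : X) (A : Finset ℕ), IsGreedySet f x A →
    sInf {r : ℝ | ∃ a : ℕ → 𝕜, r = ‖x - ∑ n ∈ A, a n • e n‖} ≤ C * sigma 𝕜 e A.card x

end Definitions

/-! ### The function of two special coordinates -/

/-- `G a b c m` with `a = |p|`, `b = |q|`, `c = |p - q|`. -/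
noncomputable def G (a b c m : ℝ) : ℝ :=
  max (7 / 5 * m + c) (max (12 / 5 * a + b) (a + 12 / 5 * b))

lemma G_le {a b c m r : ℝ} (h1 : 7 / 5 * m + c ≤ r) (h2 : 12 / 5 * a + b ≤ r)
    (h3 : a + 12 / 5 * b ≤ r) : G a b c m ≤ r :=
  max_le h1 (max_le h2 h3)

lemma le_G1 (a b c m : ℝ) : 7 / 5 * m + c ≤ G a b c m := le_max_left _ _
lemma le_G2 (a b c m : ℝ) : 12 / 5 * a + b ≤ G a b c m :=
  le_trans (le_max_left _ _) (le_max_right _ _)
lemma le_G3 (a b c m : ℝ) : a + 12 / 5 * b ≤ G a b c m :=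
  le_trans (le_max_right _ _) (le_max_right _ _)

section Space

variable (𝕜 : Type) [RCLike 𝕜]

/-- The underlying vector space is `ℓ₁`. -/
def Sp : Type := lp (fun _ : ℕ => 𝕜) 1

noncomputable instance : AddCommGroup (Sp 𝕜) :=
  inferInstanceAs (AddCommGroup (lp (fun _ : ℕ => 𝕜) 1))
noncomputable instance : Module 𝕜 (Sp 𝕜) :=
  inferInstanceAs (Module 𝕜 (lp (fun _ : ℕ => 𝕜) 1))

variable {𝕜}

/-- the element seen in `ℓ₁` -/
def Sp.toL (x : Sp 𝕜) : lp (fun _ : ℕ => 𝕜) 1 := x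

/-- the coordinates -/
def co (x : Sp 𝕜) (n : ℕ) : 𝕜 := x.toL n

@[simp] lemma co_add (x y : Sp 𝕜) (n : ℕ) : co (x + y) n = co x n + co y n := rfl
@[simp] lemma co_sub (x y : Sp 𝕜) (n : ℕ) : co (x - y) n = co x n - co y n := rfl
@[simp] lemma co_smul (c : 𝕜) (x : Sp 𝕜) (n : ℕ) : co (c • x) n = c * co x n := rfl
@[simp] lemma co_zero (n : ℕ) : co (0 : Sp 𝕜) n = 0 := rfl

lemma co_ext {x y : Sp 𝕜} (h : ∀ n, co x n = co y n) : x = y :=
  lp.ext (funext h)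

lemma summable_co (x : Sp 𝕜) : Summable fun n => ‖co x n‖ := by
  have := (lp.memℓp x.toL).summable (p := 1) (by norm_num)
  simpa [co] using this

lemma norm_toL (x : Sp 𝕜) : ‖x.toL‖ = ∑' n, ‖co x n‖ := by
  have := lp.norm_eq_tsum_rpow (p := 1) (by norm_num) x.toL
  simpa [co] using this

/-- the sum of the moduli of the coordinates `n ≥ 2` -/
noncomputable def T (x : Sp 𝕜) : ℝ := ∑' n, ‖co x (n + 2)‖

/-- the largest modulus of a coordinate -/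
noncomputable def M (x : Sp 𝕜) : ℝ := ⨆ n, ‖co x n‖

lemma summable_shift (x : Sp 𝕜) : Summable fun n => ‖co x (n + 2)‖ :=
  (summable_nat_add_iff 2).2 (summable_co x)

lemma norm_toL' (x : Sp 𝕜) : ‖x.toL‖ = ‖co x 0‖ + ‖co x 1‖ + T x := by
  rw [norm_toL, ← (summable_co x).sum_add_tsum_nat_add 2, Finset.sum_range_succ,
    Finset.sum_range_one]
  rfl

lemma T_nonneg (x : Sp 𝕜) : 0 ≤ T x := tsum_nonneg fun _ => norm_nonneg _

lemma co_le_norm (x : Sp 𝕜) (n : ℕ) : ‖co x n‖ ≤ ‖x.toL‖ :=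
  lp.norm_apply_le_norm (by norm_num) x.toL n

lemma bdd_co (x : Sp 𝕜) : BddAbove (Set.range fun n => ‖co x n‖) :=
  ⟨‖x.toL‖, by rintro _ ⟨n, rfl⟩; exact co_le_norm x n⟩

lemma co_le_M (x : Sp 𝕜) (n : ℕ) : ‖co x n‖ ≤ M x := le_ciSup (bdd_co x) n

lemma M_le {x : Sp 𝕜} {r : ℝ} (h : ∀ n, ‖co x n‖ ≤ r) : M x ≤ r := ciSup_le h

lemma M_nonneg (x : Sp 𝕜) : 0 ≤ M x := le_trans (norm_nonneg _) (co_le_M x 0)

lemma T_add (x y : Sp 𝕜) : T (x + y) ≤ T x + T y := by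
  rw [T, T, T, ← (summable_shift x).tsum_add (summable_shift y)]
  exact (summable_shift (x + y)).tsum_le_tsum (fun n => norm_add_le _ _)
    ((summable_shift x).add (summable_shift y))

lemma M_add (x y : Sp 𝕜) : M (x + y) ≤ M x + M y :=
  M_le fun n => (norm_add_le _ _).trans (add_le_add (co_le_M x n) (co_le_M y n))

lemma T_smul (c : 𝕜) (x : Sp 𝕜) : T (c • x) = ‖c‖ * T x := by
  simp only [T, co_smul, norm_mul]
  exact tsum_mul_left

lemma M_smul (c : 𝕜) (x : Sp 𝕜) : M (c • x) = ‖c‖ * M x := by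
  simp only [M, co_smul, norm_mul]
  rw [Real.mul_iSup_of_nonneg (norm_nonneg c)]

/-- The new norm. -/
noncomputable def N (x : Sp 𝕜) : ℝ :=
  (T x + G ‖co x 0‖ ‖co x 1‖ ‖co x 0 - co x 1‖ (M x)) / (12 / 5)

lemma N_add (x y : Sp 𝕜) : N (x + y) ≤ N x + N y := by
  have h0 := norm_add_le (co x 0) (co y 0)
  have h1 := norm_add_le (co x 1) (co y 1)
  have h2 : ‖(co x 0 + co y 0) - (co x 1 + co y 1)‖ ≤ ‖co x 0 - co x 1‖ + ‖co y 0 - co y 1‖ := by
    have : (co x 0 + co y 0) - (co x 1 + co y 1) = (co x 0 - co x 1) + (co y 0 - co y 1) := by ring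
    rw [this]; exact norm_add_le _ _
  have hT := T_add x y
  have hM := M_add x y
  have hG : G ‖co (x + y) 0‖ ‖co (x + y) 1‖ ‖co (x + y) 0 - co (x + y) 1‖ (M (x + y)) ≤
      G ‖co x 0‖ ‖co x 1‖ ‖co x 0 - co x 1‖ (M x) + G ‖co y 0‖ ‖co y 1‖ ‖co y 0 - co y 1‖ (M y) := by
    simp only [co_add]
    have a1 := le_G1 ‖co x 0‖ ‖co x 1‖ ‖co x 0 - co x 1‖ (M x)
    have a2 := le_G2 ‖co x 0‖ ‖co x 1‖ ‖co x 0 - co x 1‖ (M x)
    have a3 := le_G3 ‖co x 0‖ ‖co x 1‖ ‖co x 0 - co x 1‖ (M x)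
    have b1 := le_G1 ‖co y 0‖ ‖co y 1‖ ‖co y 0 - co y 1‖ (M y)
    have b2 := le_G2 ‖co y 0‖ ‖co y 1‖ ‖co y 0 - co y 1‖ (M y)
    have b3 := le_G3 ‖co y 0‖ ‖co y 1‖ ‖co y 0 - co y 1‖ (M y)
    apply G_le <;> linarith
  unfold N
  linarith

lemma N_smul (c : 𝕜) (x : Sp 𝕜) : N (c • x) = ‖c‖ * N x := by
  have hc : (0 : ℝ) ≤ ‖c‖ := norm_nonneg c
  have : co (c • x) 0 - co (c • x) 1 = c * (co x 0 - co x 1) := by simp [mul_sub]
  unfold N
  rw [T_smul, M_smul, this]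
  simp only [co_smul, norm_mul]
  have hG : G (‖c‖ * ‖co x 0‖) (‖c‖ * ‖co x 1‖) (‖c‖ * ‖co x 0 - co x 1‖) (‖c‖ * M x) =
      ‖c‖ * G ‖co x 0‖ ‖co x 1‖ ‖co x 0 - co x 1‖ (M x) := by
    unfold G
    rw [mul_max_of_nonneg _ _ hc, mul_max_of_nonneg _ _ hc]
    congr 1
    · ring
    · congr 1 <;> ring
  rw [hG]; ring

lemma norm_le_N (x : Sp 𝕜) : ‖x.toL‖ ≤ 3 * N x := by
  have g2 := le_G2 ‖co x 0‖ ‖co x 1‖ ‖co x 0 - co x 1‖ (M x)
  have g3 := le_G3 ‖co x 0‖ ‖co x 1‖ ‖co x 0 - co x 1‖ (M x)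
  have h0 := norm_nonneg (co x 0)
  have h1 := norm_nonneg (co x 1)
  have hT := T_nonneg x
  rw [norm_toL']; unfold N; linarith

lemma N_le_norm (x : Sp 𝕜) : N x ≤ 2 * ‖x.toL‖ := by
  have h0 := norm_nonneg (co x 0)
  have h1 := norm_nonneg (co x 1)
  have hT := T_nonneg x
  have hM : M x ≤ ‖x.toL‖ := M_le (co_le_norm x)
  have h2 : ‖co x 0 - co x 1‖ ≤ ‖co x 0‖ + ‖co x 1‖ := norm_sub_le _ _
  have h3 := norm_toL' x
  have hG : G ‖co x 0‖ ‖co x 1‖ ‖co x 0 - co x 1‖ (M x) ≤ 12 / 5 * ‖x.toL‖ := by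
    apply G_le <;> linarith
  unfold N; linarith

noncomputable instance : Norm (Sp 𝕜) := ⟨N⟩

lemma norm_def (x : Sp 𝕜) : ‖x‖ = N x := rfl

lemma core : NormedSpace.Core 𝕜 (Sp 𝕜) where
  norm_nonneg x := by
    have h := norm_le_N x
    have h' : 0 ≤ ‖x.toL‖ := norm_nonneg _
    rw [norm_def]; linarith
  norm_smul c x := N_smul c x
  norm_triangle x y := N_add x y
  norm_eq_zero_iff x := by
    constructor
    · intro h
      have h1 := norm_le_N x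
      rw [← norm_def, h, mul_zero] at h1
      have h2 : ‖x.toL‖ = 0 := le_antisymm h1 (norm_nonneg _)
      exact norm_eq_zero.1 h2
    · rintro rfl
      have h1 := N_le_norm (0 : Sp 𝕜)
      have h2 := norm_le_N (0 : Sp 𝕜)
      have h3 : ‖(0 : Sp 𝕜).toL‖ = 0 := norm_zero
      rw [h3] at h1 h2
      rw [norm_def]; linarith

noncomputable instance : NormedAddCommGroup (Sp 𝕜) := NormedAddCommGroup.ofCore core
noncomputable instance : NormedSpace 𝕜 (Sp 𝕜) := NormedSpace.ofCore core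

lemma norm_def' (x : Sp 𝕜) : ‖x‖ = N x := rfl

/-- the identity map to `ℓ₁` -/
noncomputable def toLL : Sp 𝕜 →ₗ[𝕜] lp (fun _ : ℕ => 𝕜) 1 where
  toFun := Sp.toL
  map_add' _ _ := rfl
  map_smul' _ _ := rfl

/-- the inverse identity map -/
noncomputable def ofLL : lp (fun _ : ℕ => 𝕜) 1 →ₗ[𝕜] Sp 𝕜 where
  toFun := fun x => x
  map_add' _ _ := rfl
  map_smul' _ _ := rfl

/-- the continuous identity map to `ℓ₁` -/
noncomputable def toC : Sp 𝕜 →L[𝕜] lp (fun _ : ℕ => 𝕜) 1 :=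
  toLL.mkContinuous 3 norm_le_N

/-- the continuous identity map from `ℓ₁` -/
noncomputable def ofC : lp (fun _ : ℕ => 𝕜) 1 →L[𝕜] Sp 𝕜 :=
  (ofLL (𝕜 := 𝕜)).mkContinuous 2 fun x => N_le_norm (𝕜 := 𝕜) (ofLL x)

lemma ofC_toC (x : Sp 𝕜) : ofC (toC x) = x := rfl
lemma toC_ofC (x : lp (fun _ : ℕ => 𝕜) 1) : toC (ofC x) = x := rfl

instance : CompleteSpace (Sp 𝕜) := by
  refine Metric.complete_of_cauchySeq_tendsto fun u hu => ?_
  have h1 : CauchySeq fun n => toC (u n) := hu.map toC.uniformContinuous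
  obtain ⟨L, hL⟩ := cauchySeq_tendsto_of_complete h1
  exact ⟨ofC L, (ofC.continuous.tendsto L).comp hL⟩

/-- the unit vectors -/
noncomputable def e (𝕜 : Type) [RCLike 𝕜] (n : ℕ) : Sp 𝕜 := ofC (lp.single 1 n (1 : 𝕜))

lemma co_e (n k : ℕ) : co (e 𝕜 n) k = if k = n then 1 else 0 := by
  have : co (e 𝕜 n) k = (Pi.single n (1 : 𝕜) : ℕ → 𝕜) k := rfl
  rw [this, Pi.single_apply]

/-- the coordinate functionals -/
noncomputable def f (𝕜 : Type) [RCLike 𝕜] (n : ℕ) : Sp 𝕜 →L[𝕜] 𝕜 :=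
  LinearMap.mkContinuous
    { toFun := fun x => co x n
      map_add' := fun _ _ => rfl
      map_smul' := fun _ _ => rfl } 1 (by
    intro x
    have h0 := norm_nonneg (co x 0)
    have h1 := norm_nonneg (co x 1)
    have hT := T_nonneg x
    have hM := co_le_M x n
    have g1 := le_G1 ‖co x 0‖ ‖co x 1‖ ‖co x 0 - co x 1‖ (M x)
    have g2 := le_G2 ‖co x 0‖ ‖co x 1‖ ‖co x 0 - co x 1‖ (M x)
    have g3 := le_G3 ‖co x 0‖ ‖co x 1‖ ‖co x 0 - co x 1‖ (M x)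
    have h2 := norm_nonneg (co x 0 - co x 1)
    show ‖co x n‖ ≤ 1 * N x
    unfold N
    match n with
    | 0 => linarith
    | 1 => linarith
    | n + 2 =>
      have h3 : ‖co x (n + 2)‖ ≤ T x :=
        (summable_shift x).le_tsum n (fun _ _ => norm_nonneg _)
      linarith)

@[simp] lemma f_apply (n : ℕ) (x : Sp 𝕜) : f 𝕜 n x = co x n := rfl

lemma hasSum_e (x : Sp 𝕜) : HasSum (fun n => f 𝕜 n x • e 𝕜 n) x := by
  have h := lp.hasSum_single (p := 1) (by norm_num) x.toL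
  have h2 := h.mapL ofC
  have h3 : (fun n => ofC (lp.single 1 n (x.toL n))) = fun n => f 𝕜 n x • e 𝕜 n := by
    funext n
    apply co_ext
    intro k
    rw [co_smul, co_e]
    have : co (ofC (lp.single 1 n (x.toL n))) k = (Pi.single n (x.toL n) : ℕ → 𝕜) k := rfl
    rw [this, Pi.single_apply]
    by_cases h : k = n <;> simp [h, co]
  rw [h3] at h2
  exact h2

lemma isMarkushevichBasis : IsMarkushevichBasis (e 𝕜) (f 𝕜) where
  biorthogonal k n := by rw [f_apply, co_e]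
  dense_span := by
    intro x
    refine mem_closure_of_tendsto (hasSum_e x) (Filter.Eventually.of_forall fun s => ?_)
    exact Submodule.sum_mem _ fun n _ =>
      Submodule.smul_mem _ _ (Submodule.subset_span ⟨n, rfl⟩)
  total x h := co_ext fun n => h n

lemma co_sum (A : Finset ℕ) (a : ℕ → 𝕜) (k : ℕ) :
    co (∑ n ∈ A, a n • e 𝕜 n) k = if k ∈ A then a k else 0 := by
  have : ∀ x, co x k = f 𝕜 k x := fun x => rfl
  rw [this, map_sum]
  simp only [map_smul, f_apply, co_e, smul_eq_mul, mul_ite, mul_one, mul_zero]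
  rw [Finset.sum_ite_eq]

lemma co_sub_proj (A : Finset ℕ) (x : Sp 𝕜) (k : ℕ) :
    co (x - proj (e 𝕜) (f 𝕜) A x) k = if k ∈ A then 0 else co x k := by
  rw [co_sub, proj, co_sum]
  by_cases h : k ∈ A <;> simp [h]

lemma norm_toL_sub_proj (A : Finset ℕ) (x : Sp 𝕜) :
    ‖(x - proj (e 𝕜) (f 𝕜) A x).toL‖ + ∑ n ∈ A, ‖co x n‖ = ‖x.toL‖ := by
  have h1 : ∑ n ∈ A, ‖co x n‖ = ∑' n, (if n ∈ A then ‖co x n‖ else 0) := by
    rw [tsum_eq_sum (s := A)]
    · exact Finset.sum_congr rfl fun n hn => by rw [if_pos hn]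
    · intro n hn; rw [if_neg hn]
  have h2 : Summable fun n => (if n ∈ A then ‖co x n‖ else 0) :=
    summable_of_ne_finset_zero (s := A) fun n hn => if_neg hn
  rw [norm_toL, norm_toL, h1, ← (summable_co _).tsum_add h2]
  congr 1
  funext n
  rw [co_sub_proj]
  by_cases h : n ∈ A <;> simp [h]

/-- The main inequality. -/
lemma main_ineq (x : Sp 𝕜) (A B : Finset ℕ) (hA : IsGreedySet (f 𝕜) x A)
    (hB : B.card ≤ A.card) :
    N (x - proj (e 𝕜) (f 𝕜) A x) ≤ N (x - proj (e 𝕜) (f 𝕜) B x) := by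
  by_cases hAB : A ⊆ B
  · rw [Finset.eq_of_subset_of_card_le hAB hB]
  obtain ⟨n₀, hn₀A, hn₀B⟩ := Finset.not_subset.1 hAB
  set z := x - proj (e 𝕜) (f 𝕜) A x with hz
  set w := x - proj (e 𝕜) (f 𝕜) B x with hw
  have hzk : ∀ k, co z k = if k ∈ A then 0 else co x k := fun k => co_sub_proj A x k
  have hwk : ∀ k, co w k = if k ∈ B then 0 else co x k := fun k => co_sub_proj B x k
  set t := M z with ht
  have ht0 : 0 ≤ t := M_nonneg z
  have hout : ∀ k, k ∉ A → ‖co x k‖ ≤ t := by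
    intro k hk
    have := co_le_M z k
    rwa [hzk, if_neg hk] at this
  have hin : ∀ n, n ∈ A → t ≤ ‖co x n‖ := by
    intro n hn
    refine M_le fun k => ?_
    rw [hzk]
    by_cases hk : k ∈ A
    · rw [if_pos hk, norm_zero]; exact norm_nonneg _
    · rw [if_neg hk]; exact hA n hn k hk
  have hMw : t ≤ M w := by
    have := co_le_M w n₀
    rw [hwk, if_neg hn₀B] at this
    exact (hin n₀ hn₀A).trans this
  -- comparison of the `ℓ₁` norms
  set g : ℕ → ℝ := fun n =>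
    ((if n ∈ A then (1 : ℝ) else 0) - (if n ∈ B then (1 : ℝ) else 0)) * (‖co x n‖ - t) with hg
  have hg0 : ∀ n, 0 ≤ g n := by
    intro n
    simp only [hg]
    by_cases h1 : n ∈ A <;> by_cases h2 : n ∈ B
    · simp [h1, h2]
    · have := hin n h1
      simp only [h1, h2, if_true, if_false]; linarith
    · have := hout n h1
      simp only [h1, h2, if_true, if_false]; linarith
    · simp [h1, h2]
  have hsum : ∑ n ∈ A ∪ B ∪ {0, 1}, g n =
      ∑ n ∈ A, ‖co x n‖ - ∑ n ∈ B, ‖co x n‖ - t * ((A.card : ℝ) - B.card) := by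
    have e1 : ∀ S : Finset ℕ, S ⊆ A ∪ B ∪ {0, 1} →
        ∑ n ∈ A ∪ B ∪ {0, 1}, (if n ∈ S then (1 : ℝ) else 0) * (‖co x n‖ - t) =
          ∑ n ∈ S, ‖co x n‖ - t * S.card := by
      intro S hS
      have : ∀ n, (if n ∈ S then (1 : ℝ) else 0) * (‖co x n‖ - t) =
          if n ∈ S then (‖co x n‖ - t) else 0 := by
        intro n; by_cases h : n ∈ S <;> simp [h]
      simp only [this]
      rw [Finset.sum_ite_mem, Finset.inter_eq_right.2 hS, Finset.sum_sub_distrib,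
        Finset.sum_const, nsmul_eq_mul]
      ring
    have eA := e1 A (fun n hn => by simp [hn])
    have eB := e1 B (fun n hn => by simp [hn])
    have eq : ∀ n, g n = (if n ∈ A then (1 : ℝ) else 0) * (‖co x n‖ - t) -
        (if n ∈ B then (1 : ℝ) else 0) * (‖co x n‖ - t) := fun n => sub_mul _ _ _
    rw [Finset.sum_congr rfl (fun n _ => eq n), Finset.sum_sub_distrib, eA, eB]
    ring
  have h01 : g 0 + g 1 ≤ ∑ n ∈ A ∪ B ∪ {0, 1}, g n := by
    have : ∑ n ∈ ({0, 1} : Finset ℕ), g n ≤ ∑ n ∈ A ∪ B ∪ {0, 1}, g n :=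
      Finset.sum_le_sum_of_subset_of_nonneg (fun n hn => by
        simp only [Finset.mem_union]; exact Or.inr hn) fun n _ _ => hg0 n
    rwa [Finset.sum_pair (by norm_num)] at this
  have hcard : 0 ≤ t * ((A.card : ℝ) - B.card) :=
    mul_nonneg ht0 (sub_nonneg.2 (by exact_mod_cast hB))
  have hz1 := norm_toL_sub_proj A x
  have hw1 := norm_toL_sub_proj B x
  rw [← hz] at hz1
  rw [← hw] at hw1
  have hz2 := norm_toL' z
  have hw2 := norm_toL' w
  have hlen : g 0 + g 1 ≤ ‖w.toL‖ - ‖z.toL‖ := by linarith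
  have key : G ‖co z 0‖ ‖co z 1‖ ‖co z 0 - co z 1‖ t ≤
      G ‖co w 0‖ ‖co w 1‖ ‖co w 0 - co w 1‖ (M w) + ‖co z 0‖ + ‖co z 1‖ - ‖co w 0‖ - ‖co w 1‖ +
        (g 0 + g 1) := by
    have q1 := le_G1 ‖co w 0‖ ‖co w 1‖ ‖co w 0 - co w 1‖ (M w)
    have q2 := le_G2 ‖co w 0‖ ‖co w 1‖ ‖co w 0 - co w 1‖ (M w)
    have q3 := le_G3 ‖co w 0‖ ‖co w 1‖ ‖co w 0 - co w 1‖ (M w)
    have m0 := co_le_M w 0
    have m1 := co_le_M w 1
    have n0 := norm_nonneg (co x 0)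
    have n1 := norm_nonneg (co x 1)
    have n2 := norm_nonneg (co x 0 - co x 1)
    have s1 : ‖co x 0 - co x 1‖ ≤ ‖co x 0‖ + ‖co x 1‖ := norm_sub_le _ _
    have i0 := hin 0
    have i1 := hin 1
    have o0 := hout 0
    have o1 := hout 1
    simp only [hwk] at q1 q2 q3 m0 m1
    simp only [hzk, hwk, hg]
    by_cases a0 : 0 ∈ A <;> by_cases b0 : 0 ∈ B <;> by_cases a1 : 1 ∈ A <;>
      by_cases b1 : 1 ∈ B <;>
      simp only [a0, b0, a1, b1, if_true, if_false, norm_zero, sub_zero, zero_sub, norm_neg,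
        not_true_eq_false, not_false_eq_true, forall_const, IsEmpty.forall_iff] at * <;>
      apply G_le <;> linarith
  unfold N
  rw [← ht]
  linarith

lemma almostGreedy : AlmostGreedy 1 (e 𝕜) (f 𝕜) := by
  intro x A hA
  rw [one_mul]
  refine le_csInf ⟨‖x - proj (e 𝕜) (f 𝕜) ∅ x‖, ∅, by simp, rfl⟩ ?_
  rintro r ⟨B, hB, rfl⟩
  exact main_ineq x A B hA hB

/-- The vector that violates the semi-greedy inequality. -/
noncomputable def x₀ (𝕜 : Type) [RCLike 𝕜] : Sp 𝕜 :=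
  (7 / 17 : 𝕜) • e 𝕜 0 - e 𝕜 1 + e 𝕜 2

lemma co_x₀ (k : ℕ) : co (x₀ 𝕜) k =
    if k = 0 then 7 / 17 else if k = 1 then -1 else if k = 2 then 1 else 0 := by
  simp only [x₀, co_add, co_sub, co_smul, co_e]
  by_cases h0 : k = 0
  · simp [h0]
  by_cases h1 : k = 1
  · simp [h1]
  by_cases h2 : k = 2
  · simp [h2]
  simp [h0, h1, h2]

lemma third_norm : ‖(7 / 17 : 𝕜)‖ = 7 / 17 := by
  rw [norm_div, RCLike.norm_ofNat, RCLike.norm_ofNat]

lemma greedy_x₀ : IsGreedySet (f 𝕜) (x₀ 𝕜) {2} := by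
  intro n hn k _
  rw [Finset.mem_singleton] at hn
  subst hn
  have h2 : co (x₀ 𝕜) 2 = 1 := by rw [co_x₀]; simp
  rw [f_apply, f_apply, h2, norm_one, co_x₀]
  split_ifs
  · rw [third_norm]; norm_num
  · simp
  · simp
  · simp

lemma T_eq_sum {x : Sp 𝕜} (s : Finset ℕ) (h : ∀ n, n ∉ s → co x (n + 2) = 0) :
    T x = ∑ n ∈ s, ‖co x (n + 2)‖ := by
  rw [T, tsum_eq_sum (s := s)]
  intro n hn
  rw [h n hn, norm_zero]

lemma lower (a : ℕ → 𝕜) :
    239 / 204 ≤ ‖x₀ 𝕜 - ∑ n ∈ ({2} : Finset ℕ), a n • e 𝕜 n‖ := by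
  set z := x₀ 𝕜 - ∑ n ∈ ({2} : Finset ℕ), a n • e 𝕜 n with hz
  have hzk : ∀ k, co z k = co (x₀ 𝕜) k - if k ∈ ({2} : Finset ℕ) then a k else 0 := by
    intro k; rw [hz, co_sub, co_sum]
  have h0 : co z 0 = 7 / 17 := by rw [hzk, co_x₀]; simp
  have h1 : co z 1 = -1 := by rw [hzk, co_x₀]; simp
  have hT : 0 ≤ T z := T_nonneg z
  have g3 := le_G3 ‖co z 0‖ ‖co z 1‖ ‖co z 0 - co z 1‖ (M z)
  rw [h0, h1, norm_neg, norm_one, third_norm] at g3
  rw [norm_def']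
  unfold N
  rw [h0, h1, norm_neg, norm_one, third_norm]
  linarith

lemma upper :
    ‖x₀ 𝕜 - ∑ n ∈ ({1} : Finset ℕ), (fun _ => (-(24 / 17) : 𝕜)) n • e 𝕜 n‖ ≤ 1 := by
  set w := x₀ 𝕜 - ∑ n ∈ ({1} : Finset ℕ), (fun _ => (-(24 / 17) : 𝕜)) n • e 𝕜 n with hw
  have hwk : ∀ k, co w k =
      co (x₀ 𝕜) k - if k ∈ ({1} : Finset ℕ) then (-(24 / 17) : 𝕜) else 0 := by
    intro k; rw [hw, co_sub, co_sum]
  have h1 : co w 1 = 7 / 17 := by
    rw [hwk, co_x₀]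
    simp only [one_ne_zero, if_false, if_true, Finset.mem_singleton]
    norm_num
  have hrest : ∀ k, k ≠ 1 → co w k = co (x₀ 𝕜) k := by
    intro k hk; rw [hwk]; simp [hk]
  have h0 : co w 0 = 7 / 17 := by rw [hrest 0 zero_ne_one, co_x₀]; simp
  have h2 : co w 2 = 1 := by rw [hrest 2 (by norm_num), co_x₀]; simp
  have h4 : ∀ n, n ∉ ({0} : Finset ℕ) → co w (n + 2) = 0 := by
    intro n hn
    simp only [Finset.mem_singleton] at hn
    rw [hrest _ (by omega), co_x₀, if_neg (by omega), if_neg (by omega), if_neg (by omega)]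
  have hT : T w = 1 := by
    rw [T_eq_sum {0} h4, Finset.sum_singleton]
    rw [show 0 + 2 = 2 from rfl, h2, norm_one]
  have hM : M w ≤ 1 := by
    refine M_le fun k => ?_
    by_cases hk : k = 1
    · rw [hk, h1, third_norm]; norm_num
    · rw [hrest k hk, co_x₀]
      split_ifs
      · rw [third_norm]; norm_num
      · simp
      · simp
  rw [norm_def']
  unfold N
  rw [hT, h0, h1, third_norm, sub_self, norm_zero]
  have : G (7 / 17) (7 / 17) 0 (M w) ≤ 7 / 5 := by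
    apply G_le <;> linarith
  linarith

lemma not_semiGreedy {C : ℝ} (hC : C < 239 / 204) : ¬ SemiGreedy C (e 𝕜) (f 𝕜) := by
  intro h
  have h1 := h (x₀ 𝕜) {2} greedy_x₀
  have h2 : 239 / 204 ≤ sInf {r : ℝ | ∃ a : ℕ → 𝕜,
      r = ‖x₀ 𝕜 - ∑ n ∈ ({2} : Finset ℕ), a n • e 𝕜 n‖} := by
    refine le_csInf ⟨_, fun _ => 0, rfl⟩ ?_
    rintro r ⟨a, rfl⟩
    exact lower a
  have h3 : sigma 𝕜 (e 𝕜) ({2} : Finset ℕ).card (x₀ 𝕜) ≤ 1 := by
    refine le_trans ?_ (upper (𝕜 := 𝕜))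
    unfold sigma
    refine csInf_le ⟨0, ?_⟩ ⟨{1}, fun _ => -(24 / 17), by simp, rfl⟩
    rintro r ⟨B, a, _, rfl⟩
    exact norm_nonneg _
  have h0 : 0 ≤ sigma 𝕜 (e 𝕜) ({2} : Finset ℕ).card (x₀ 𝕜) := by
    unfold sigma
    refine Real.sInf_nonneg ?_
    rintro r ⟨B, a, _, rfl⟩
    exact norm_nonneg _
  rcases le_or_gt 0 C with hc | hc
  · have h4 : C * sigma 𝕜 (e 𝕜) ({2} : Finset ℕ).card (x₀ 𝕜) ≤ C * 1 :=
      mul_le_mul_of_nonneg_left h3 hc
    linarith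
  · have h4 : C * sigma 𝕜 (e 𝕜) ({2} : Finset ℕ).card (x₀ 𝕜) ≤ 0 :=
      mul_nonpos_of_nonpos_of_nonneg hc.le h0
    linarith

lemma norm_e (n : ℕ) : ‖e 𝕜 n‖ = 1 := by
  have hM : M (e 𝕜 n) = 1 := by
    apply le_antisymm
    · refine M_le fun k => ?_
      rw [co_e]; split_ifs <;> simp
    · have := co_le_M (e 𝕜 n) n
      rwa [co_e, if_pos rfl, norm_one] at this
  rw [norm_def']
  unfold N
  rw [hM]
  match n with
  | 0 =>
    rw [T_eq_sum ∅ (fun n _ => by rw [co_e]; simp), co_e, co_e]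
    simp only [if_true, one_ne_zero, if_false, norm_one, norm_zero, sub_zero, Finset.sum_empty]
    norm_num [G]
  | 1 =>
    rw [T_eq_sum ∅ (fun n _ => by rw [co_e]; simp), co_e, co_e]
    simp only [if_true, zero_ne_one, if_false, norm_one, norm_zero, zero_sub, norm_neg,
      Finset.sum_empty]
    norm_num [G]
  | m + 2 =>
    rw [T_eq_sum {m} (fun n hn => by
      rw [co_e, if_neg]; simpa using hn), co_e, co_e, Finset.sum_singleton, co_e]
    simp only [if_true, norm_one]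
    rw [if_neg (by omega), if_neg (by omega)]
    norm_num [G]

lemma norm_f (n : ℕ) : ‖f 𝕜 n‖ = 1 := by
  apply le_antisymm
  · exact LinearMap.mkContinuous_norm_le _ zero_le_one _
  · have := (f 𝕜 n).le_opNorm (e 𝕜 n)
    rwa [norm_e, f_apply, co_e, if_pos rfl, norm_one, mul_one] at this

end Space

/-- Over `𝕜 = ℝ` and over `𝕜 = ℂ` there is a Banach space with a Markushevich basis (which is
moreover a normalized unconditional Schauder basis with normalized functionals) that is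
`1`-almost-greedy but is not `C`-semi-greedy for any `C < 239/204 = 1.1715…`. -/
theorem result (𝕜 : Type) [RCLike 𝕜] :
    ∃ (X : Type) (_ : NormedAddCommGroup X) (_ : NormedSpace 𝕜 X) (_ : CompleteSpace X)
      (e : ℕ → X) (f : ℕ → X →L[𝕜] 𝕜),
      IsMarkushevichBasis e f ∧ (∀ n, ‖e n‖ = 1 ∧ ‖f n‖ = 1) ∧
      (∀ x : X, HasSum (fun n => f n x • e n) x) ∧
      AlmostGreedy 1 e f ∧ ∀ C : ℝ, C < 239 / 204 → ¬ SemiGreedy C e f :=
  ⟨Sp 𝕜, inferInstance, inferInstance, inferInstance, e 𝕜, f 𝕜, isMarkushevichBasis,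
    fun n => ⟨norm_e n, norm_f n⟩, hasSum_e, almostGreedy, fun _ hC => not_semiGreedy hC⟩

end Pool.Agent.Results.MP_b7f2f1_an.SemiGreedyGap
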